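import Pool.Agent.helper747_ip.Defs

/-!
# Curves that pass between two sides of a hyperplane many times
-/

set_option autoImplicit false

namespace Pool.Agent.helper747_ip

open Finset

/-- a continuous function passes through decreasing values at increasing times -/
theorem times (f : ℝ → ℝ) (hf : ContinuousOn f (Set.Icc 0 1)) (g : ℕ → ℝ) (L : ℕ)
    (hg : ∀ i, i < L → g (i + 1) < g i) (h0 : g 0 ≤ f 0) (h1 : f 1 ≤ g L) :
    ∃ s : ℕ → ℝ, (∀ i, i ≤ L → s i ∈ Set.Icc (0 : ℝ) 1 ∧ f (s i) = g i) ∧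
      ∀ i, i < L → s i < s (i + 1) := by
  induction L with
  | zero =>
    have h2 : g 0 ∈ Set.Icc (f 1) (f 0) := ⟨h1, h0⟩
    obtain ⟨t, ht, hft⟩ := intermediate_value_Icc' zero_le_one hf h2
    refine ⟨fun _ => t, fun i hi => ?_, fun i hi => absurd hi (Nat.not_lt_zero _)⟩
    rw [Nat.le_zero.1 hi]
    exact ⟨ht, hft⟩
  | succ L ih =>
    have h2 : g (L + 1) < g L := hg L (Nat.lt_succ_self L)
    obtain ⟨s, hs1, hs2⟩ := ih (fun i hi => hg i (by omega)) (h1.trans h2.le)
    obtain ⟨hsL, hfL⟩ := hs1 L le_rfl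
    have hf' : ContinuousOn f (Set.Icc (s L) 1) := hf.mono (Set.Icc_subset_Icc_left hsL.1)
    have h3 : g (L + 1) ∈ Set.Icc (f 1) (f (s L)) := ⟨h1, by rw [hfL]; exact h2.le⟩
    obtain ⟨t, ht, hft⟩ := intermediate_value_Icc' hsL.2 hf' h3
    have hlt : s L < t := by
      refine lt_of_le_of_ne ht.1 fun he => ?_
      rw [← he, hfL] at hft
      exact absurd hft h2.ne'
    refine ⟨fun i => if i ≤ L then s i else t, fun i hi => ?_, fun i hi => ?_⟩
    · by_cases hiL : i ≤ L
      · simp only [hiL, if_true]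
        exact hs1 i hiL
      · have : i = L + 1 := by omega
        subst this
        simp only [hiL, if_false]
        exact ⟨⟨hsL.1.trans ht.1, ht.2⟩, hft⟩
    · by_cases hiL : i + 1 ≤ L
      · have : i ≤ L := by omega
        simp only [hiL, this, if_true]
        exact hs2 i (by omega)
      · have h4 : i = L := by omega
        subst h4
        simp only [le_refl, if_true, hiL, if_false]
        exact hlt

/-- the same for increasing values -/
theorem times' (f : ℝ → ℝ) (hf : ContinuousOn f (Set.Icc 0 1)) (g : ℕ → ℝ) (L : ℕ)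
    (hg : ∀ i, i < L → g i < g (i + 1)) (h0 : f 0 ≤ g 0) (h1 : g L ≤ f 1) :
    ∃ s : ℕ → ℝ, (∀ i, i ≤ L → s i ∈ Set.Icc (0 : ℝ) 1 ∧ f (s i) = g i) ∧
      ∀ i, i < L → s i < s (i + 1) := by
  obtain ⟨s, h2, h3⟩ := times (fun x => - f x) hf.neg (fun i => - g i) L
    (fun i hi => neg_lt_neg (hg i hi)) (neg_le_neg h0) (neg_le_neg h1)
  exact ⟨s, fun i hi => ⟨(h2 i hi).1, neg_injective (h2 i hi).2⟩, h3⟩

variable {J : Type} [Fintype J]

/-- The signs of a linear functional alternate on the points of the curve at which the function `f`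
takes consecutive values of the sequence `w`: then there are at most `d + 1` of these values between
the ends. -/
theorem piece (d : ℕ) (γ : ℝ → J → ℝ) (hγ : CrossesAtMost d γ) (f : ℝ → ℝ)
    (hf : ContinuousOn f (Set.Icc 0 1)) (w : ℕ → ℝ) (hw : StrictMono w) (a : J → ℝ) (T : ℕ)
    (halt : ∀ s ∈ Set.Icc (0 : ℝ) 1, ∀ j, j ≤ T → f s = w j →
      0 < (-1) ^ j * ∑ i, a i * γ s i) :
    ((range (T + 1)).filter fun j => (f 1 ≤ w j ∧ w j ≤ f 0) ∨ (f 0 ≤ w j ∧ w j ≤ f 1)).card ≤
      d + 1 := by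
  classical
  by_contra hcon
  push Not at hcon
  obtain ⟨S, hS⟩ : ∃ S, S = (range (T + 1)).filter fun j =>
    (f 1 ≤ w j ∧ w j ≤ f 0) ∨ (f 0 ≤ w j ∧ w j ≤ f 1) := ⟨_, rfl⟩
  rw [← hS] at hcon
  have hne : S.Nonempty := by
    rw [← card_pos]; omega
  obtain ⟨j0, hj0⟩ : ∃ j0, j0 = S.min' hne := ⟨_, rfl⟩
  obtain ⟨j1, hj1⟩ : ∃ j1, j1 = S.max' hne := ⟨_, rfl⟩
  have hm0 : j0 ∈ S := by rw [hj0]; exact min'_mem _ _
  have hm1 : j1 ∈ S := by rw [hj1]; exact max'_mem _ _
  have hsub : S ⊆ Icc j0 j1 := by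
    intro j hj
    rw [mem_Icc, hj0, hj1]
    exact ⟨min'_le _ _ hj, le_max' _ _ hj⟩
  have hlen : j0 + (d + 1) ≤ j1 := by
    have := card_le_card hsub
    rw [Nat.card_Icc] at this
    omega
  rw [hS, mem_filter, mem_range] at hm0 hm1
  obtain ⟨-, hm0⟩ := hm0
  obtain ⟨hj1T, hm1⟩ := hm1
  -- alternating times give a contradiction
  have key : ∀ s : ℕ → ℝ, ∀ k : ℕ → ℕ, (∀ i, i ≤ d + 1 → s i ∈ Set.Icc (0 : ℝ) 1 ∧
      f (s i) = w (k i)) → (∀ i, i < d + 1 → s i < s (i + 1)) → (∀ i, i ≤ d + 1 → k i ≤ T) →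
      (∀ i, i < d + 1 → Odd (k i + k (i + 1))) → False := by
    intro s k hs1 hs2 hkT hodd
    refine hγ a 0 ⟨fun i => s i.1, ?_, fun i => (hs1 i.1 (by omega)).1, fun i => ?_⟩
    · refine Fin.strictMono_iff_lt_succ.2 fun i => ?_
      have := hs2 i.1 i.2
      simpa using this
    · have e1 := halt _ (hs1 i.1 (by omega)).1 (k i.1) (hkT _ (by omega)) (hs1 i.1 (by omega)).2
      have e2 := halt _ (hs1 (i.1 + 1) (by omega)).1 (k (i.1 + 1)) (hkT _ (by omega))
        (hs1 (i.1 + 1) (by omega)).2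
      have e3 : ((-1 : ℝ)) ^ (k i.1) * (-1) ^ (k (i.1 + 1)) = -1 := by
        rw [← pow_add]
        exact (hodd i.1 i.2).neg_one_pow
      have e4 := mul_pos e1 e2
      have e5 : (-1 : ℝ) ^ (k i.1) * (∑ j, a j * γ (s i.1) j) *
          ((-1) ^ (k (i.1 + 1)) * ∑ j, a j * γ (s (i.1 + 1)) j) =
          ((-1) ^ (k i.1) * (-1) ^ (k (i.1 + 1))) *
            ((∑ j, a j * γ (s i.1) j) * ∑ j, a j * γ (s (i.1 + 1)) j) := by ring
      rw [e5, e3] at e4
      show (∑ j, a j * γ (s (i.castSucc).1) j - 0) * (∑ j, a j * γ (s (i.succ).1) j - 0) < 0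
      rw [sub_zero, sub_zero]
      have e6 : (i.castSucc : Fin (d + 2)).1 = i.1 := rfl
      have e7 : (i.succ : Fin (d + 2)).1 = i.1 + 1 := rfl
      rw [e6, e7]
      linarith
  have hwj : w j0 < w j1 := hw (by omega)
  have hwd : ∀ i, i ≤ d + 1 → w j0 ≤ w (j0 + i) ∧ w (j0 + i) ≤ w j1 := fun i hi =>
    ⟨hw.monotone (by omega), hw.monotone (by omega)⟩
  rcases le_total (f 0) (f 1) with h01 | h01
  · -- increasing
    have h2 : f 0 ≤ w j0 := by
      rcases hm0 with h | h
      · exact h01.trans h.1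
      · exact h.1
    have h3 : w j1 ≤ f 1 := by
      rcases hm1 with h | h
      · exact h.2.trans h01
      · exact h.2
    obtain ⟨s, hs1, hs2⟩ := times' f hf (fun i => w (j0 + i)) (d + 1)
      (fun i _ => hw (by omega)) h2 ((hwd (d + 1) le_rfl).2.trans h3)
    exact key s (fun i => j0 + i) hs1 hs2 (fun i hi => by omega) (fun i _ => ⟨j0 + i, by omega⟩)
  · have h2 : w j1 ≤ f 0 := by
      rcases hm1 with h | h
      · exact h.2
      · exact h.2.trans h01
    have h3 : f 1 ≤ w j0 := by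
      rcases hm0 with h | h
      · exact h.1
      · exact h01.trans h.1
    obtain ⟨s, hs1, hs2⟩ := times f hf (fun i => w (j0 + (d + 1) - i)) (d + 1)
      (fun i hi => hw (by omega)) (by
        show w (j0 + (d + 1) - 0) ≤ f 0
        exact (hwd (d + 1) le_rfl).2.trans h2)
      (by
        show f 1 ≤ w (j0 + (d + 1) - (d + 1))
        rw [Nat.add_sub_cancel]
        exact h3)
    exact key s (fun i => j0 + (d + 1) - i) hs1 hs2 (fun i hi => by omega)
      (fun i hi => ⟨j0 + (d + 1) - i - 1, by omega⟩)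

/-- a trajectory has many pieces -/
theorem trajectory_long {S : (J → ℝ) → Prop} {N d : ℕ} {p : ℕ → J → ℝ} {γ : ℕ → ℝ → J → ℝ}
    (hγ : Trajectory S N d p γ) (f : (J → ℝ) → ℝ) (hf : Continuous f) (w : ℕ → ℝ)
    (hw : StrictMono w) (a : J → ℝ) (T : ℕ) (hT : 1 ≤ T)
    (halt : ∀ x, S x → ∀ j, j ≤ T → f x = w j → 0 < (-1) ^ j * ∑ i, a i * x i)
    (h0 : w T ≤ f (p 0)) (h1 : f (p N) ≤ w 0) : T + 1 ≤ N * (d + 1) := by
  classical
  have hex : ∀ j, j ≤ T → ∃ k, k < N ∧ f (p (k + 1)) ≤ w j ∧ w j ≤ f (p k) := by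
    intro j hj
    by_contra hcon
    push Not at hcon
    have hall : ∀ k, k ≤ N → w j ≤ f (p k) := by
      intro k
      induction k with
      | zero => intro _; exact (hw.monotone hj).trans h0
      | succ k ih =>
        intro hk
        by_contra hlt
        push Not at hlt
        exact absurd (ih (by omega)) (not_le.2 (hcon k (by omega) hlt.le))
    have h2 := hall N le_rfl
    have h3 : w 0 ≤ w j := hw.monotone (Nat.zero_le j)
    have h4 : f (p N) = w j := le_antisymm (h1.trans h3) h2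
    rcases Nat.eq_zero_or_pos N with hN | hN
    · subst hN
      have h5 : w 0 < w T := hw (by omega)
      linarith
    · have h6 : N - 1 + 1 = N := by omega
      have h5 := hcon (N - 1) (by omega) (by rw [h6, h4])
      exact absurd (hall (N - 1) (by omega)) (not_le.2 h5)
  have hcov : range (T + 1) ⊆ (range N).biUnion fun k => (range (T + 1)).filter fun j =>
      (f (γ k 1) ≤ w j ∧ w j ≤ f (γ k 0)) ∨ (f (γ k 0) ≤ w j ∧ w j ≤ f (γ k 1)) := by
    intro j hj
    obtain ⟨k, hk, h2, h3⟩ := hex j (by rw [mem_range] at hj; omega)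
    obtain ⟨-, e0, e1, -, -⟩ := hγ k hk
    rw [mem_biUnion]
    refine ⟨k, mem_range.2 hk, mem_filter.2 ⟨hj, Or.inl ?_⟩⟩
    rw [e0, e1]
    exact ⟨h2, h3⟩
  have h2 := (card_le_card hcov).trans card_biUnion_le
  rw [card_range] at h2
  refine h2.trans ?_
  have h3 : ∀ k ∈ range N, ((range (T + 1)).filter fun j =>
      (f (γ k 1) ≤ w j ∧ w j ≤ f (γ k 0)) ∨ (f (γ k 0) ≤ w j ∧ w j ≤ f (γ k 1))).card ≤ d + 1 := by
    intro k hk
    obtain ⟨hc, e0, e1, hcr, hS⟩ := hγ k (mem_range.1 hk)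
    exact piece d (γ k) hcr (fun s => f (γ k s)) (hf.comp_continuousOn hc) w hw a T
      fun s hs j hj hfj => halt _ (hS s hs) j hj hfj
  calc ∑ k ∈ range N, ((range (T + 1)).filter fun j =>
      (f (γ k 1) ≤ w j ∧ w j ≤ f (γ k 0)) ∨ (f (γ k 0) ≤ w j ∧ w j ≤ f (γ k 1))).card
      ≤ ∑ _k ∈ range N, (d + 1) := sum_le_sum h3
    _ = N * (d + 1) := by rw [sum_const, card_range, smul_eq_mul]

/-- rational curves of degree `d` cross every hyperplane at most `d` times -/
theorem rational_crosses (d : ℕ) (P : J → Polynomial ℝ) (Q : Polynomial ℝ)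
    (hP : ∀ j, (P j).natDegree ≤ d) (hQ : Q.natDegree ≤ d)
    (hQ0 : ∀ s ∈ Set.Icc (0 : ℝ) 1, Q.eval s ≠ 0) :
    CrossesAtMost d fun s j => (P j).eval s / Q.eval s := by
  classical
  rintro a α ⟨p, hp1, hp2, hp3⟩
  obtain ⟨R, hR⟩ : ∃ R : Polynomial ℝ, R = ∑ j, Polynomial.C (a j) * P j - Polynomial.C α * Q :=
    ⟨_, rfl⟩
  have hRd : R.natDegree ≤ d := by
    rw [hR]
    refine (Polynomial.natDegree_sub_le _ _).trans (max_le ?_ ?_)
    · refine Polynomial.natDegree_sum_le_of_forall_le _ _ fun j _ => ?_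
      exact (Polynomial.natDegree_C_mul_le _ _).trans (hP j)
    · exact (Polynomial.natDegree_C_mul_le _ _).trans hQ
  have hev : ∀ s ∈ Set.Icc (0 : ℝ) 1,
      ∑ j, a j * ((P j).eval s / Q.eval s) - α = R.eval s / Q.eval s := by
    intro s hs
    rw [hR, Polynomial.eval_sub, Polynomial.eval_mul, Polynomial.eval_C,
      Polynomial.eval_finset_sum, sub_div, mul_div_assoc, div_self (hQ0 s hs), mul_one,
      Finset.sum_div]
    congr 1
    refine Finset.sum_congr rfl fun j _ => ?_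
    rw [Polynomial.eval_mul, Polynomial.eval_C, mul_div_assoc]
  -- the denominator has constant sign
  have hQs : ∀ s ∈ Set.Icc (0 : ℝ) 1, ∀ t ∈ Set.Icc (0 : ℝ) 1, 0 < Q.eval s * Q.eval t := by
    intro s hs t ht
    by_contra hcon
    push Not at hcon
    have hcont : ContinuousOn (fun x => Q.eval x) (Set.uIcc s t) := Q.continuous.continuousOn
    have h0 : (0 : ℝ) ∈ Set.uIcc (Q.eval s) (Q.eval t) := by
      rw [Set.mem_uIcc]
      rcases le_total 0 (Q.eval s) with h | h
      · have h2 : 0 < Q.eval s := lt_of_le_of_ne h (hQ0 s hs).symm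
        right
        refine ⟨?_, h⟩
        by_contra hc
        push Not at hc
        exact absurd (mul_pos h2 hc) (not_lt.2 hcon)
      · have h2 : Q.eval s < 0 := lt_of_le_of_ne h (hQ0 s hs)
        left
        refine ⟨h, ?_⟩
        by_contra hc
        push Not at hc
        exact absurd (mul_pos_of_neg_of_neg h2 hc) (not_lt.2 hcon)
    obtain ⟨x, hx, hx0⟩ := intermediate_value_uIcc hcont h0
    refine hQ0 x ?_ hx0
    rw [Set.mem_uIcc] at hx
    rcases hx with hx | hx
    · exact ⟨hs.1.trans hx.1, hx.2.trans ht.2⟩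
    · exact ⟨ht.1.trans hx.1, hx.2.trans hs.2⟩
  have hroot : ∀ i : Fin (d + 1), ∃ x, p i.castSucc < x ∧ x < p i.succ ∧ R.eval x = 0 := by
    intro i
    have h1 := hp3 i
    rw [hev _ (hp2 _), hev _ (hp2 _)] at h1
    have h2 : R.eval (p i.castSucc) * R.eval (p i.succ) < 0 := by
      have h3 := hQs _ (hp2 i.castSucc) _ (hp2 i.succ)
      have h4 : R.eval (p i.castSucc) / Q.eval (p i.castSucc) *
          (R.eval (p i.succ) / Q.eval (p i.succ)) =
          (R.eval (p i.castSucc) * R.eval (p i.succ)) /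
            (Q.eval (p i.castSucc) * Q.eval (p i.succ)) := by
        rw [div_mul_div_comm]
      rw [h4] at h1
      by_contra hc
      push Not at hc
      exact absurd (div_nonneg hc h3.le) (not_le.2 h1)
    have hlt : p i.castSucc < p i.succ := hp1 (Fin.castSucc_lt_succ)
    have hcont : ContinuousOn (fun x => R.eval x) (Set.Icc (p i.castSucc) (p i.succ)) :=
      R.continuous.continuousOn
    have hz : ∃ x ∈ Set.Icc (p i.castSucc) (p i.succ), R.eval x = 0 := by
      rcases lt_or_gt_of_ne (show R.eval (p i.castSucc) ≠ 0 by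
        intro h; rw [h, zero_mul] at h2; exact lt_irrefl _ h2) with h | h
      · have h5 : 0 < R.eval (p i.succ) := by
          by_contra hc
          push Not at hc
          exact absurd (mul_nonneg_of_nonpos_of_nonpos h.le hc) (not_le.2 h2)
        obtain ⟨x, hx, hx0⟩ := intermediate_value_Icc hlt.le hcont ⟨h.le, h5.le⟩
        exact ⟨x, hx, hx0⟩
      · have h5 : R.eval (p i.succ) < 0 := by
          by_contra hc
          push Not at hc
          exact absurd (mul_nonneg h.le hc) (not_le.2 h2)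
        obtain ⟨x, hx, hx0⟩ := intermediate_value_Icc' hlt.le hcont ⟨h5.le, h.le⟩
        exact ⟨x, hx, hx0⟩
    obtain ⟨x, hx, hx0⟩ := hz
    refine ⟨x, lt_of_le_of_ne hx.1 ?_, lt_of_le_of_ne hx.2 ?_, hx0⟩
    · rintro rfl
      rw [hx0, zero_mul] at h2
      exact lt_irrefl _ h2
    · rintro rfl
      rw [hx0, mul_zero] at h2
      exact lt_irrefl _ h2
  choose x hx1 hx2 hx3 using hroot
  have hxmono : StrictMono x := by
    refine Fin.strictMono_iff_lt_succ.2 ?_
    intro i
    have h1 := hx2 i.castSucc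
    have h2 := hx1 i.succ
    have h3 : (i.castSucc).succ = (i.succ).castSucc := rfl
    rw [h3] at h1
    exact h1.trans h2
  have hR0 : R = 0 := by
    by_contra hne
    have h1 : (univ.image x).card ≤ R.roots.toFinset.card := by
      refine card_le_card fun y hy => ?_
      rw [mem_image] at hy
      obtain ⟨i, -, rfl⟩ := hy
      rw [Multiset.mem_toFinset, Polynomial.mem_roots hne]
      exact hx3 i
    rw [card_image_of_injective _ hxmono.injective, card_univ, Fintype.card_fin] at h1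
    have h2 := Multiset.toFinset_card_le R.roots
    have h3 := Polynomial.card_roots' R
    omega
  have h1 := hp3 0
  rw [hev _ (hp2 _), hR0, Polynomial.eval_zero, zero_div, zero_mul] at h1
  exact lt_irrefl _ h1

end Pool.Agent.helper747_ip
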