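import Mathlib

/-!
# Linear programs, the central path and curves
-/

set_option autoImplicit false

namespace Pool.Agent.helper747_ip

open Finset

/-- The linear program: minimise `c · x` subject to `A x ≥ b`. -/
structure LP (I J : Type) where
  /-- the matrix -/
  A : I → J → ℝ
  /-- the right-hand side -/
  b : I → ℝ
  /-- the objective -/
  c : J → ℝ

variable {I J : Type} [Fintype I] [Fintype J]

/-- the slack of the inequality `i` at `x` -/
def LP.slack (P : LP I J) (x : J → ℝ) (i : I) : ℝ := ∑ j, P.A i j * x j - P.b i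

/-- the value of the objective -/
def LP.cost (P : LP I J) (x : J → ℝ) : ℝ := ∑ j, P.c j * x j

/-- feasible points -/
def LP.Feasible (P : LP I J) (x : J → ℝ) : Prop := ∀ i, 0 ≤ P.slack x i

/-- The point `x` is strictly feasible and no feasible point of the same or of smaller cost has a
slack that is more than `K` times the slack of `x`. -/
def LP.Centered (P : LP I J) (K : ℝ) (x : J → ℝ) : Prop :=
  (∀ i, 0 < P.slack x i) ∧
    ∀ z, P.Feasible z → P.cost z ≤ P.cost x → ∀ i, P.slack z i ≤ K * P.slack x i

/-- The primal-dual pair `(x, y)` is in the wide neighbourhood `𝒩(θ)` of the central path, with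
duality measure `μ` (the duality gap divided by the number of inequalities): `x` and `y` are
strictly feasible, and `(A x - b) i * y i ≥ θ μ` for all `i`. The points of the central path are the
ones with `θ = 1`. -/
def LP.Wide (P : LP I J) (θ μ : ℝ) (x : J → ℝ) (y : I → ℝ) : Prop :=
  (∀ i, 0 < P.slack x i) ∧ (∀ i, 0 < y i) ∧ (∀ j, ∑ i, y i * P.A i j = P.c j) ∧
    ∑ i, P.slack x i * y i = Fintype.card I * μ ∧ ∀ i, θ * μ ≤ P.slack x i * y i

/-- The curve `γ : [0, 1] → ℝ ^ J` crosses every hyperplane at most `d` times: there are no `d + 2`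
consecutive times at which it is alternately strictly on the two sides of one hyperplane. -/
def CrossesAtMost (d : ℕ) (γ : ℝ → J → ℝ) : Prop :=
  ∀ (a : J → ℝ) (α : ℝ), ¬ ∃ p : Fin (d + 2) → ℝ, StrictMono p ∧ (∀ i, p i ∈ Set.Icc (0 : ℝ) 1) ∧
    ∀ i : Fin (d + 1), (∑ j, a j * γ (p i.castSucc) j - α) * (∑ j, a j * γ (p i.succ) j - α) < 0

/-- `N` continuous curves `γ k : [0, 1] → ℝ ^ J` from the point `p k` to the point `p (k + 1)`, each
of which crosses every hyperplane at most `d` times, all of whose points have the property `S`. -/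
def Trajectory (S : (J → ℝ) → Prop) (N d : ℕ) (p : ℕ → J → ℝ) (γ : ℕ → ℝ → J → ℝ) : Prop :=
  ∀ k, k < N → ContinuousOn (γ k) (Set.Icc 0 1) ∧ γ k 0 = p k ∧ γ k 1 = p (k + 1) ∧
    CrossesAtMost d (γ k) ∧ ∀ s ∈ Set.Icc (0 : ℝ) 1, S (γ k s)

end Pool.Agent.helper747_ip
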