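import Pool.Agent.helper747_ip.Path

/-!
# Exponentially many pieces
-/

set_option autoImplicit false

namespace Pool.Agent.helper747_ip

open Finset

theorem kap_le (r τ i : ℕ) (hτ : 1 ≤ τ) : kap r τ i ≤ τ ^ 2 ^ r := by
  unfold kap
  exact Nat.pow_le_pow_right hτ (Nat.sub_le _ _)

theorem kap_pos (r τ i : ℕ) (hτ : 1 ≤ τ) : 1 ≤ kap r τ i := by
  unfold kap
  exact Nat.one_le_pow _ _ hτ

theorem UV_growth (r τ : ℕ) (hτ : 1 ≤ τ) (lam : ℝ) (hl : 0 ≤ lam) (i : ℕ) :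
    (UV r τ lam i).1 ≤ (2 * (τ : ℝ) ^ 2 ^ r) ^ (i + 1) * (1 + lam) ∧
      (UV r τ lam i).2 ≤ (2 * (τ : ℝ) ^ 2 ^ r) ^ (i + 1) * (1 + lam) := by
  have hτ1 : (1 : ℝ) ≤ τ := by exact_mod_cast hτ
  have hT : (1 : ℝ) ≤ (τ : ℝ) ^ 2 ^ r := one_le_pow₀ hτ1
  induction i with
  | zero =>
    refine ⟨?_, ?_⟩
    · show (τ : ℝ) ^ 2 ^ r ≤ (2 * (τ : ℝ) ^ 2 ^ r) ^ (0 + 1) * (1 + lam)
      rw [zero_add, pow_one]
      nlinarith
    · show lam ≤ (2 * (τ : ℝ) ^ 2 ^ r) ^ (0 + 1) * (1 + lam)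
      rw [zero_add, pow_one]
      nlinarith
  | succ i ih =>
    obtain ⟨a, b⟩ := ih
    obtain ⟨B, hB⟩ : ∃ B, B = (2 * (τ : ℝ) ^ 2 ^ r) ^ (i + 1) * (1 + lam) := ⟨_, rfl⟩
    rw [← hB] at a b
    have hB0 : 0 ≤ B := by rw [hB]; positivity
    have e : (2 * (τ : ℝ) ^ 2 ^ r) ^ (i + 1 + 1) * (1 + lam) = 2 * (τ : ℝ) ^ 2 ^ r * B := by
      rw [hB, pow_succ _ (i + 1)]; ring
    rw [e]
    refine ⟨?_, ?_⟩
    · show (τ : ℝ) ^ 2 ^ r * min (UV r τ lam i).1 (UV r τ lam i).2 ≤ _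
      have h1 : (τ : ℝ) ^ 2 ^ r * min (UV r τ lam i).1 (UV r τ lam i).2 ≤ (τ : ℝ) ^ 2 ^ r * B :=
        mul_le_mul_of_nonneg_left ((min_le_left _ _).trans a) (by linarith)
      nlinarith
    · show (kap r τ i : ℝ) * ((UV r τ lam i).1 + (UV r τ lam i).2) ≤ _
      have h2 : (kap r τ i : ℝ) ≤ (τ : ℝ) ^ 2 ^ r := by exact_mod_cast kap_le r τ i hτ
      have h3 := UV_nonneg r τ lam hl i
      calc (kap r τ i : ℝ) * ((UV r τ lam i).1 + (UV r τ lam i).2)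
          ≤ (τ : ℝ) ^ 2 ^ r * (B + B) :=
            mul_le_mul h2 (add_le_add a b) (add_nonneg h3.1 h3.2) (by linarith)
        _ = _ := by ring

theorem prog_growth (r τ : ℕ) (hτ : 1 ≤ τ) (x : Jx r → ℝ) (hx : (prog r τ).Feasible x) :
    0 ≤ (prog r τ).cost x ∧
      ∀ j, |x j| ≤ (2 * (τ : ℝ) ^ 2 ^ r) ^ (r + 1) * (1 + (prog r τ).cost x) := by
  have hτ1 : (1 : ℝ) ≤ τ := by exact_mod_cast hτ
  have hT : (1 : ℝ) ≤ (τ : ℝ) ^ 2 ^ r := one_le_pow₀ hτ1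
  have hnn := nonneg_all r τ hτ x hx
  rw [cost_eq]
  refine ⟨hnn _, fun j => ?_⟩
  rw [abs_of_nonneg (hnn j)]
  obtain ⟨i, k⟩ := j
  have h1 := le_UV r τ x hx (x (0, true)) le_rfl i.1 i.2
  have h2 := UV_growth r τ hτ (x (0, true)) (hnn _) i.1
  have h3 : (2 * (τ : ℝ) ^ 2 ^ r) ^ (i.1 + 1) * (1 + x (0, true)) ≤
      (2 * (τ : ℝ) ^ 2 ^ r) ^ (r + 1) * (1 + x (0, true)) := by
    refine mul_le_mul_of_nonneg_right ?_ (by have := hnn (0, true); linarith)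
    exact pow_le_pow_right₀ (by linarith) (by omega)
  cases k
  · exact h1.1.trans (h2.1.trans h3)
  · exact h1.2.trans (h2.2.trans h3)

/-- a strictly feasible point -/
theorem strict_point (r τ : ℕ) (hτ : 1 ≤ τ) :
    ∃ x : Jx r → ℝ, ∀ i, 0 < (prog r τ).slack x i := by
  have hτ1 : (1 : ℝ) ≤ τ := by exact_mod_cast hτ
  have hT : (1 : ℝ) ≤ (τ : ℝ) ^ 2 ^ r := one_le_pow₀ hτ1
  refine ⟨fun j => (1 / 2) ^ (j.1.1 + 1), fun i => ?_⟩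
  have hs : ∀ i : Fin r, ((1 : ℝ) / 2) ^ ((i.succ : Fin (r + 1)).1 + 1) =
      (1 / 2) * (1 / 2) ^ ((i.castSucc : Fin (r + 1)).1 + 1) := by
    intro i
    rw [Fin.val_succ, Fin.val_castSucc, pow_succ]; ring
  have hp : ∀ k : ℕ, (0 : ℝ) < (1 / 2) ^ k := fun k => by positivity
  rcases i with ⟨⟩ | ⟨i, k⟩ | k
  · rw [slack_top]
    show 0 < (τ : ℝ) ^ 2 ^ r - (1 / 2) ^ ((0 : Fin (r + 1)).1 + 1)
    rw [Fin.val_zero, zero_add, pow_one]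
    linarith
  · fin_cases k
    · show 0 < (prog r τ).slack _ (Sum.inr (Sum.inl (i, 0)))
      rw [slack_0]
      show 0 < (τ : ℝ) ^ 2 ^ r * (1 / 2) ^ ((i.castSucc : Fin (r + 1)).1 + 1) -
        (1 / 2) ^ ((i.succ : Fin (r + 1)).1 + 1)
      rw [hs]
      have := hp ((i.castSucc : Fin (r + 1)).1 + 1)
      nlinarith
    · show 0 < (prog r τ).slack _ (Sum.inr (Sum.inl (i, 1)))
      rw [slack_1]
      show 0 < (τ : ℝ) ^ 2 ^ r * (1 / 2) ^ ((i.castSucc : Fin (r + 1)).1 + 1) -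
        (1 / 2) ^ ((i.succ : Fin (r + 1)).1 + 1)
      rw [hs]
      have := hp ((i.castSucc : Fin (r + 1)).1 + 1)
      nlinarith
    · show 0 < (prog r τ).slack _ (Sum.inr (Sum.inl (i, 2)))
      rw [slack_2]
      show 0 < (kap r τ i.1 : ℝ) * ((1 / 2) ^ ((i.castSucc : Fin (r + 1)).1 + 1) +
        (1 / 2) ^ ((i.castSucc : Fin (r + 1)).1 + 1)) - (1 / 2) ^ ((i.succ : Fin (r + 1)).1 + 1)
      rw [hs]
      have h1 := hp ((i.castSucc : Fin (r + 1)).1 + 1)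
      have h2 : (1 : ℝ) ≤ kap r τ i.1 := by exact_mod_cast kap_pos r τ i.1 hτ
      nlinarith
  · rw [slack_last]
    exact hp _

/-- long trajectories -/
theorem long (r τ : ℕ) (hr : 1 ≤ r) (K : ℝ) (hK : 1 ≤ K) (hτ : K * 2 ^ r < τ) (N d : ℕ)
    (p : ℕ → Jx r → ℝ) (γ : ℕ → ℝ → Jx r → ℝ) (h : Trajectory ((prog r τ).Centered K) N d p γ)
    (h0 : (τ : ℝ) ^ (2 * 2 ^ r) ≤ (prog r τ).cost (p 0)) (h1 : (prog r τ).cost (p N) ≤ 1) :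
    2 ^ r + 1 ≤ N * (d + 1) := by
  classical
  have hτ1 : (1 : ℝ) < τ := by
    have h2 : (1 : ℝ) ≤ 2 ^ r := one_le_pow₀ (by norm_num)
    nlinarith
  have hsum : ∀ x : Jx r → ℝ, ∑ j, ((dl (Fin.last r, true) j : ℝ) - (dl (Fin.last r, false) j : ℝ))
      * x j = x (Fin.last r, true) - x (Fin.last r, false) := by
    intro x
    simp only [sub_mul]
    rw [Finset.sum_sub_distrib, sum_dl, sum_dl]
  refine trajectory_long h (prog r τ).cost (cost_cont _) (fun j => (τ : ℝ) ^ (2 * j)) ?_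
    (fun j => (dl (Fin.last r, true) j : ℝ) - (dl (Fin.last r, false) j : ℝ)) (2 ^ r)
    Nat.one_le_two_pow ?_ h0 (by simpa using h1)
  · intro a b hab
    exact pow_lt_pow_right₀ hτ1 (by omega)
  · intro x hx j hj hc
    rw [hsum]
    exact alternates r τ hr K (by linarith) hτ x hx j hj hc

/-- the theorem -/
theorem main (r : ℕ) (hr : 1 ≤ r) (K : ℝ) (hK : 1 ≤ K) :
    ∃ (I J : Type) (_ : Fintype I) (_ : Fintype J) (P : LP I J) (B : ℝ),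
      Fintype.card I = 3 * r + 3 ∧ Fintype.card J = 2 * r + 2 ∧
      (∀ i j, ∃ z : ℤ, P.A i j = z) ∧ (∀ i, ∃ z : ℤ, P.b i = z) ∧ (∀ j, ∃ z : ℤ, P.c j = z) ∧
      (∀ x, P.Feasible x → 0 ≤ P.cost x) ∧
      (∀ μ : ℝ, 0 < μ → ∃ x y, P.Wide 1 μ x y) ∧
      (∀ (N d : ℕ) (p : ℕ → J → ℝ) (γ : ℕ → ℝ → J → ℝ), Trajectory (P.Centered K) N d p γ →
        B ≤ P.cost (p 0) → P.cost (p N) ≤ 1 → 2 ^ r + 1 ≤ N * (d + 1)) ∧
      ∀ (θ : ℝ), 0 < θ → 3 * r + 3 ≤ K * θ →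
        ∀ (N d : ℕ) (p : ℕ → J → ℝ) (γ : ℕ → ℝ → J → ℝ) (μ₀ μ₁ : ℝ) (y₀ y₁ : I → ℝ),
          Trajectory (fun x => ∃ μ y, P.Wide θ μ x y) N d p γ → P.Wide θ μ₀ (p 0) y₀ →
          P.Wide θ μ₁ (p N) y₁ → B ≤ θ * μ₀ → (3 * r + 3) * μ₁ ≤ 1 → 2 ^ r + 1 ≤ N * (d + 1) := by
  obtain ⟨τ, hτ⟩ := exists_nat_gt (K * 2 ^ r)
  have hτ1 : 1 ≤ τ := by
    have h2 : (1 : ℝ) ≤ 2 ^ r := one_le_pow₀ (by norm_num)
    have h3 : (0 : ℝ) < τ := by nlinarith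
    have h4 : 0 < τ := by exact_mod_cast h3
    omega
  refine ⟨Ix r, Jx r, inferInstance, inferInstance, prog r τ, (τ : ℝ) ^ (2 * 2 ^ r), card_Ix r,
    card_Jx r, fun i j => ⟨_, rfl⟩, fun i => ⟨_, rfl⟩, fun j => ⟨_, rfl⟩,
    fun x hx => (prog_growth r τ hτ1 x hx).1, ?_, fun N d p γ h h0 h1 =>
      long r τ hr K hK hτ N d p γ h h0 h1, ?_⟩
  · intro μ hμ
    obtain ⟨x0, hx0⟩ := strict_point r τ hτ1
    exact path_exists (prog r τ) _ (by positivity) (prog_growth r τ hτ1) x0 hx0 μ hμ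
  · intro θ hθ hKθ N d p γ μ₀ μ₁ y₀ y₁ h hp0 hpN hB hμ1
    have hcard : (Fintype.card (Ix r) : ℝ) / θ ≤ K := by
      rw [card_Ix, div_le_iff₀ hθ]
      push_cast
      exact hKθ
    have hcen : ∀ x, (∃ μ y, (prog r τ).Wide θ μ x y) → (prog r τ).Centered K x := by
      rintro x ⟨μ, y, hxy⟩
      have h1 := wide_centered (prog r τ) θ μ hθ x y hxy
      exact ⟨h1.1, fun z hz hc i => (h1.2 z hz hc i).trans
        (mul_le_mul_of_nonneg_right hcard (h1.1 i).le)⟩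
    refine long r τ hr K hK hτ N d p γ (fun k hk => ?_) ?_ ?_
    · obtain ⟨a1, a2, a3, a4, a5⟩ := h k hk
      exact ⟨a1, a2, a3, a4, fun s hs => hcen _ (a5 s hs)⟩
    · exact hB.trans (cost_bounds r τ hr hτ1 θ μ₀ _ _ hp0).1
    · refine (cost_bounds r τ hr hτ1 θ μ₁ _ _ hpN).2.trans ?_
      push_cast
      exact hμ1

end Pool.Agent.helper747_ip
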