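import Pool.Agent.helper747_ip.Curve

/-!
# The linear programs
-/

set_option autoImplicit false

namespace Pool.Agent.helper747_ip

open Finset

/-- indices of the variables: `(i, false)` is `u i` and `(i, true)` is `v i` -/
abbrev Jx (r : ℕ) : Type := Fin (r + 1) × Bool

/-- indices of the inequalities -/
abbrev Ix (r : ℕ) : Type := Unit ⊕ (Fin r × Fin 3) ⊕ Bool

/-- the coefficient of `v (i + 1) ≤ κ (u i + v i)` -/
def kap (r τ i : ℕ) : ℕ := τ ^ (2 ^ r - 2 ^ (r - (i + 1)))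

/-- indicator -/
def dl {r : ℕ} (j j' : Jx r) : ℤ := if j = j' then 1 else 0

/-- the matrix -/
def mat (r τ : ℕ) : Ix r → Jx r → ℤ
  | Sum.inl _, j => - dl (0, false) j
  | Sum.inr (Sum.inl (i, k)), j =>
    if k = 0 then (τ : ℤ) ^ 2 ^ r * dl (i.castSucc, false) j - dl (i.succ, false) j
    else if k = 1 then (τ : ℤ) ^ 2 ^ r * dl (i.castSucc, true) j - dl (i.succ, false) j
    else (kap r τ i.1 : ℤ) * (dl (i.castSucc, false) j + dl (i.castSucc, true) j) -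
      dl (i.succ, true) j
  | Sum.inr (Sum.inr k), j => dl (Fin.last r, k) j

/-- the right-hand side -/
def rhs (r τ : ℕ) : Ix r → ℤ
  | Sum.inl _ => - (τ : ℤ) ^ 2 ^ r
  | Sum.inr _ => 0

/-- the program: `u 0 ≤ t`, `u (i + 1) ≤ t u i`, `u (i + 1) ≤ t v i`,
`v (i + 1) ≤ κ i (u i + v i)`, `0 ≤ u r`, `0 ≤ v r`, minimise `v 0` -/
noncomputable def prog (r τ : ℕ) : LP (Ix r) (Jx r) where
  A i j := mat r τ i j
  b i := rhs r τ i
  c j := (dl (0, true) j : ℤ)

theorem sum_dl {r : ℕ} (x : Jx r → ℝ) (j' : Jx r) : ∑ j, (dl j' j : ℝ) * x j = x j' := by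
  rw [Finset.sum_eq_single j']
  · simp [dl]
  · intro j _ hj
    have : dl j' j = 0 := if_neg (Ne.symm hj)
    rw [this]; simp
  · intro h; exact absurd (mem_univ _) h

theorem cost_eq (r τ : ℕ) (x : Jx r → ℝ) : (prog r τ).cost x = x (0, true) := by
  unfold LP.cost prog
  exact sum_dl x _

theorem slack_top (r τ : ℕ) (x : Jx r → ℝ) :
    (prog r τ).slack x (Sum.inl ()) = (τ : ℝ) ^ 2 ^ r - x (0, false) := by
  unfold LP.slack prog mat rhs
  simp only
  push_cast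
  have h : ∀ j : Jx r, -(dl (0, false) j : ℝ) * x j = -((dl (0, false) j : ℝ) * x j) := fun j => by
    ring
  rw [Finset.sum_congr rfl fun j _ => h j, Finset.sum_neg_distrib, sum_dl]
  ring

theorem slack_0 (r τ : ℕ) (x : Jx r → ℝ) (i : Fin r) :
    (prog r τ).slack x (Sum.inr (Sum.inl (i, 0))) =
      (τ : ℝ) ^ 2 ^ r * x (i.castSucc, false) - x (i.succ, false) := by
  unfold LP.slack prog mat rhs
  simp only [if_true]
  push_cast
  have h : ∀ j : Jx r, ((τ : ℝ) ^ 2 ^ r * (dl (i.castSucc, false) j : ℝ) -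
      (dl (i.succ, false) j : ℝ)) * x j = (τ : ℝ) ^ 2 ^ r * ((dl (i.castSucc, false) j : ℝ) * x j) -
        (dl (i.succ, false) j : ℝ) * x j := fun j => by
    ring
  rw [Finset.sum_congr rfl fun j _ => h j, Finset.sum_sub_distrib, ← Finset.mul_sum, sum_dl,
    sum_dl]
  ring

theorem slack_1 (r τ : ℕ) (x : Jx r → ℝ) (i : Fin r) :
    (prog r τ).slack x (Sum.inr (Sum.inl (i, 1))) =
      (τ : ℝ) ^ 2 ^ r * x (i.castSucc, true) - x (i.succ, false) := by
  unfold LP.slack prog mat rhs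
  simp only [if_true, Fin.one_eq_zero_iff, OfNat.ofNat_ne_one, if_false]
  push_cast
  have h : ∀ j : Jx r, ((τ : ℝ) ^ 2 ^ r * (dl (i.castSucc, true) j : ℝ) -
      (dl (i.succ, false) j : ℝ)) * x j = (τ : ℝ) ^ 2 ^ r * ((dl (i.castSucc, true) j : ℝ) * x j) -
        (dl (i.succ, false) j : ℝ) * x j := fun j => by
    ring
  rw [Finset.sum_congr rfl fun j _ => h j, Finset.sum_sub_distrib, ← Finset.mul_sum, sum_dl,
    sum_dl]
  ring

theorem slack_2 (r τ : ℕ) (x : Jx r → ℝ) (i : Fin r) :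
    (prog r τ).slack x (Sum.inr (Sum.inl (i, 2))) =
      (kap r τ i.1 : ℝ) * (x (i.castSucc, false) + x (i.castSucc, true)) - x (i.succ, true) := by
  unfold LP.slack prog mat rhs
  have h2 : ¬ ((2 : Fin 3) = 0) := by decide
  have h3 : ¬ ((2 : Fin 3) = 1) := by decide
  simp only [h2, h3, if_false]
  push_cast
  have h : ∀ j : Jx r, ((kap r τ i.1 : ℝ) * ((dl (i.castSucc, false) j : ℝ) +
      (dl (i.castSucc, true) j : ℝ)) - (dl (i.succ, true) j : ℝ)) * x j =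
      ((kap r τ i.1 : ℝ) * ((dl (i.castSucc, false) j : ℝ) * x j) +
      (kap r τ i.1 : ℝ) * ((dl (i.castSucc, true) j : ℝ) * x j)) -
        (dl (i.succ, true) j : ℝ) * x j := fun j => by
    ring
  rw [Finset.sum_congr rfl fun j _ => h j, Finset.sum_sub_distrib, Finset.sum_add_distrib,
    ← Finset.mul_sum, ← Finset.mul_sum, sum_dl, sum_dl, sum_dl]
  ring

theorem slack_last (r τ : ℕ) (x : Jx r → ℝ) (k : Bool) :
    (prog r τ).slack x (Sum.inr (Sum.inr k)) = x (Fin.last r, k) := by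
  unfold LP.slack prog mat rhs
  simp only
  push_cast
  rw [sum_dl, sub_zero]

/-- feasibility, written out -/
theorem feasible_iff (r τ : ℕ) (x : Jx r → ℝ) : (prog r τ).Feasible x ↔
    x (0, false) ≤ (τ : ℝ) ^ 2 ^ r ∧
    (∀ i : Fin r, x (i.succ, false) ≤ (τ : ℝ) ^ 2 ^ r * x (i.castSucc, false) ∧
      x (i.succ, false) ≤ (τ : ℝ) ^ 2 ^ r * x (i.castSucc, true) ∧
      x (i.succ, true) ≤ (kap r τ i.1 : ℝ) * (x (i.castSucc, false) + x (i.castSucc, true))) ∧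
    ∀ k, 0 ≤ x (Fin.last r, k) := by
  unfold LP.Feasible
  constructor
  · intro h
    refine ⟨?_, fun i => ⟨?_, ?_, ?_⟩, fun k => ?_⟩
    · have := h (Sum.inl ()); rw [slack_top] at this; linarith
    · have := h (Sum.inr (Sum.inl (i, 0))); rw [slack_0] at this; linarith
    · have := h (Sum.inr (Sum.inl (i, 1))); rw [slack_1] at this; linarith
    · have := h (Sum.inr (Sum.inl (i, 2))); rw [slack_2] at this; linarith
    · have := h (Sum.inr (Sum.inr k)); rw [slack_last] at this; exact this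
  · rintro ⟨h1, h2, h3⟩ i
    rcases i with ⟨⟩ | ⟨i, k⟩ | k
    · rw [slack_top]; linarith
    · obtain ⟨a1, a2, a3⟩ := h2 i
      fin_cases k
      · show 0 ≤ (prog r τ).slack x (Sum.inr (Sum.inl (i, 0)))
        rw [slack_0]; linarith
      · show 0 ≤ (prog r τ).slack x (Sum.inr (Sum.inl (i, 1)))
        rw [slack_1]; linarith
      · show 0 ≤ (prog r τ).slack x (Sum.inr (Sum.inl (i, 2)))
        rw [slack_2]; linarith
    · rw [slack_last]; exact h3 k

/-- the largest values of `u i` and `v i` for a given value of `v 0` -/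
noncomputable def UV (r τ : ℕ) (lam : ℝ) : ℕ → ℝ × ℝ
  | 0 => ((τ : ℝ) ^ 2 ^ r, lam)
  | i + 1 => ((τ : ℝ) ^ 2 ^ r * min (UV r τ lam i).1 (UV r τ lam i).2,
      (kap r τ i : ℝ) * ((UV r τ lam i).1 + (UV r τ lam i).2))

theorem UV_nonneg (r τ : ℕ) (lam : ℝ) (hl : 0 ≤ lam) (i : ℕ) :
    0 ≤ (UV r τ lam i).1 ∧ 0 ≤ (UV r τ lam i).2 := by
  induction i with
  | zero => exact ⟨by show (0 : ℝ) ≤ (τ : ℝ) ^ 2 ^ r; positivity, hl⟩
  | succ i ih =>
    refine ⟨?_, ?_⟩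
    · show 0 ≤ (τ : ℝ) ^ 2 ^ r * min (UV r τ lam i).1 (UV r τ lam i).2
      exact mul_nonneg (by positivity) (le_min ih.1 ih.2)
    · show 0 ≤ (kap r τ i : ℝ) * ((UV r τ lam i).1 + (UV r τ lam i).2)
      exact mul_nonneg (Nat.cast_nonneg _) (add_nonneg ih.1 ih.2)

/-- the values are bounds -/
theorem le_UV (r τ : ℕ) (x : Jx r → ℝ) (hx : (prog r τ).Feasible x) (lam : ℝ)
    (hl : x (0, true) ≤ lam) : ∀ (i : ℕ) (hi : i < r + 1),
      x (⟨i, hi⟩, false) ≤ (UV r τ lam i).1 ∧ x (⟨i, hi⟩, true) ≤ (UV r τ lam i).2 := by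
  rw [feasible_iff] at hx
  obtain ⟨h1, h2, -⟩ := hx
  intro i
  induction i with
  | zero => intro hi; exact ⟨h1, hl⟩
  | succ i ih =>
    intro hi
    obtain ⟨a, b⟩ := ih (by omega)
    obtain ⟨c1, c2, c3⟩ := h2 ⟨i, by omega⟩
    refine ⟨?_, ?_⟩
    · show x (⟨i + 1, hi⟩, false) ≤ (τ : ℝ) ^ 2 ^ r * min (UV r τ lam i).1 (UV r τ lam i).2
      rw [mul_min_of_nonneg _ _ (by positivity)]
      exact le_min (c1.trans (mul_le_mul_of_nonneg_left a (by positivity)))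
        (c2.trans (mul_le_mul_of_nonneg_left b (by positivity)))
    · show x (⟨i + 1, hi⟩, true) ≤ (kap r τ i : ℝ) * ((UV r τ lam i).1 + (UV r τ lam i).2)
      exact c3.trans (mul_le_mul_of_nonneg_left (add_le_add a b) (Nat.cast_nonneg _))

/-- the point with the largest values -/
noncomputable def top (r τ : ℕ) (lam : ℝ) : Jx r → ℝ := fun j =>
  if j.2 then (UV r τ lam j.1.1).2 else (UV r τ lam j.1.1).1

theorem top_feasible (r τ : ℕ) (lam : ℝ) (hl : 0 ≤ lam) : (prog r τ).Feasible (top r τ lam) := by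
  rw [feasible_iff]
  refine ⟨le_of_eq rfl, fun i => ⟨?_, ?_, le_of_eq rfl⟩, fun k => ?_⟩
  · show (τ : ℝ) ^ 2 ^ r * min (UV r τ lam i).1 (UV r τ lam i).2 ≤ (τ : ℝ) ^ 2 ^ r * (UV r τ lam i).1
    exact mul_le_mul_of_nonneg_left (min_le_left _ _) (by positivity)
  · show (τ : ℝ) ^ 2 ^ r * min (UV r τ lam i).1 (UV r τ lam i).2 ≤ (τ : ℝ) ^ 2 ^ r * (UV r τ lam i).2
    exact mul_le_mul_of_nonneg_left (min_le_right _ _) (by positivity)
  · have := UV_nonneg r τ lam hl r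
    cases k
    · exact this.1
    · exact this.2

/-- exponents -/
def ab (r e : ℕ) : ℕ → ℕ × ℕ
  | 0 => (2 ^ r, e)
  | i + 1 => (2 ^ r + min (ab r e i).1 (ab r e i).2,
      (2 ^ r - 2 ^ (r - (i + 1))) + max (ab r e i).1 (ab r e i).2)

theorem UV_ab (r τ e : ℕ) (hτ : 1 ≤ τ) (i : ℕ) :
    ((τ : ℝ) ^ (ab r e i).1 ≤ (UV r τ ((τ : ℝ) ^ e) i).1 ∧
      (UV r τ ((τ : ℝ) ^ e) i).1 ≤ 2 ^ i * (τ : ℝ) ^ (ab r e i).1) ∧
    ((τ : ℝ) ^ (ab r e i).2 ≤ (UV r τ ((τ : ℝ) ^ e) i).2 ∧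
      (UV r τ ((τ : ℝ) ^ e) i).2 ≤ 2 ^ i * (τ : ℝ) ^ (ab r e i).2) := by
  have hτ1 : (1 : ℝ) ≤ τ := by exact_mod_cast hτ
  induction i with
  | zero => simp [UV, ab]
  | succ i ih =>
    obtain ⟨⟨a1, a2⟩, b1, b2⟩ := ih
    have hmono : ∀ a b : ℕ, a ≤ b → (τ : ℝ) ^ a ≤ (τ : ℝ) ^ b := fun a b h =>
      pow_le_pow_right₀ hτ1 h
    have hpos : ∀ a : ℕ, (0 : ℝ) < (τ : ℝ) ^ a := fun a => by positivity
    refine ⟨⟨?_, ?_⟩, ?_, ?_⟩
    · show (τ : ℝ) ^ (2 ^ r + min (ab r e i).1 (ab r e i).2) ≤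
        (τ : ℝ) ^ 2 ^ r * min (UV r τ ((τ : ℝ) ^ e) i).1 (UV r τ ((τ : ℝ) ^ e) i).2
      rw [pow_add]
      refine mul_le_mul_of_nonneg_left (le_min ?_ ?_) (hpos _).le
      · exact (hmono _ _ (min_le_left _ _)).trans a1
      · exact (hmono _ _ (min_le_right _ _)).trans b1
    · show (τ : ℝ) ^ 2 ^ r * min (UV r τ ((τ : ℝ) ^ e) i).1 (UV r τ ((τ : ℝ) ^ e) i).2 ≤
        2 ^ (i + 1) * (τ : ℝ) ^ (2 ^ r + min (ab r e i).1 (ab r e i).2)
      have h3 : min (UV r τ ((τ : ℝ) ^ e) i).1 (UV r τ ((τ : ℝ) ^ e) i).2 ≤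
          2 ^ i * (τ : ℝ) ^ min (ab r e i).1 (ab r e i).2 := by
        rcases le_total (ab r e i).1 (ab r e i).2 with h | h
        · rw [min_eq_left h]; exact (min_le_left _ _).trans a2
        · rw [min_eq_right h]; exact (min_le_right _ _).trans b2
      calc (τ : ℝ) ^ 2 ^ r * min (UV r τ ((τ : ℝ) ^ e) i).1 (UV r τ ((τ : ℝ) ^ e) i).2
          ≤ (τ : ℝ) ^ 2 ^ r * (2 ^ i * (τ : ℝ) ^ min (ab r e i).1 (ab r e i).2) :=
            mul_le_mul_of_nonneg_left h3 (hpos _).le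
        _ = 2 ^ i * (τ : ℝ) ^ (2 ^ r + min (ab r e i).1 (ab r e i).2) := by rw [pow_add]; ring
        _ ≤ 2 ^ (i + 1) * (τ : ℝ) ^ (2 ^ r + min (ab r e i).1 (ab r e i).2) := by
            refine mul_le_mul_of_nonneg_right ?_ (hpos _).le
            exact pow_le_pow_right₀ (by norm_num) (Nat.le_succ i)
    · show (τ : ℝ) ^ ((2 ^ r - 2 ^ (r - (i + 1))) + max (ab r e i).1 (ab r e i).2) ≤
        (kap r τ i : ℝ) * ((UV r τ ((τ : ℝ) ^ e) i).1 + (UV r τ ((τ : ℝ) ^ e) i).2)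
      unfold kap
      push_cast
      rw [pow_add]
      refine mul_le_mul_of_nonneg_left ?_ (hpos _).le
      have ha0 := (hpos (ab r e i).1).le.trans a1
      have hb0 := (hpos (ab r e i).2).le.trans b1
      rcases le_total (ab r e i).1 (ab r e i).2 with h | h
      · rw [max_eq_right h]; linarith
      · rw [max_eq_left h]; linarith
    · show (kap r τ i : ℝ) * ((UV r τ ((τ : ℝ) ^ e) i).1 + (UV r τ ((τ : ℝ) ^ e) i).2) ≤
        2 ^ (i + 1) * (τ : ℝ) ^ ((2 ^ r - 2 ^ (r - (i + 1))) + max (ab r e i).1 (ab r e i).2)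
      have h3 : (UV r τ ((τ : ℝ) ^ e) i).1 ≤ 2 ^ i * (τ : ℝ) ^ max (ab r e i).1 (ab r e i).2 :=
        a2.trans (mul_le_mul_of_nonneg_left (hmono _ _ (le_max_left _ _)) (by positivity))
      have h4 : (UV r τ ((τ : ℝ) ^ e) i).2 ≤ 2 ^ i * (τ : ℝ) ^ max (ab r e i).1 (ab r e i).2 :=
        b2.trans (mul_le_mul_of_nonneg_left (hmono _ _ (le_max_right _ _)) (by positivity))
      unfold kap
      push_cast
      calc (τ : ℝ) ^ (2 ^ r - 2 ^ (r - (i + 1))) *
            ((UV r τ ((τ : ℝ) ^ e) i).1 + (UV r τ ((τ : ℝ) ^ e) i).2)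
          ≤ (τ : ℝ) ^ (2 ^ r - 2 ^ (r - (i + 1))) *
            (2 ^ i * (τ : ℝ) ^ max (ab r e i).1 (ab r e i).2 +
              2 ^ i * (τ : ℝ) ^ max (ab r e i).1 (ab r e i).2) :=
            mul_le_mul_of_nonneg_left (add_le_add h3 h4) (hpos _).le
        _ = _ := by rw [pow_add, pow_succ]; ring

/-- the differences of the exponents -/
def df (r e i : ℕ) : ℤ := ((ab r e i).2 : ℤ) - (ab r e i).1

theorem df_succ (r e i : ℕ) (hi : i < r) : df r e (i + 1) = |df r e i| - 2 ^ (r - (i + 1)) := by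
  unfold df
  show (((2 ^ r - 2 ^ (r - (i + 1))) + max (ab r e i).1 (ab r e i).2 : ℕ) : ℤ) -
    ((2 ^ r + min (ab r e i).1 (ab r e i).2 : ℕ) : ℤ) = _
  have h1 : 2 ^ (r - (i + 1)) ≤ 2 ^ r := Nat.pow_le_pow_right (by norm_num) (by omega)
  push_cast [Nat.cast_sub h1]
  rcases le_total (ab r e i).1 (ab r e i).2 with h | h
  · have h' : ((ab r e i).1 : ℤ) ≤ (ab r e i).2 := by exact_mod_cast h
    rw [max_eq_right h', min_eq_left h', abs_of_nonneg (by linarith)]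
    ring
  · have h' : ((ab r e i).2 : ℤ) ≤ (ab r e i).1 := by exact_mod_cast h
    rw [max_eq_left h', min_eq_right h', abs_of_nonpos (by linarith)]
    ring

/-- sizes and residues of the differences -/
theorem df_main (r j : ℕ) (hr : 1 ≤ r) (hj : j ≤ 2 ^ r) : ∀ i, i + 1 ≤ r →
    |df r (2 * j) i| ≤ 2 ^ (r - i) ∧
      (df r (2 * j) i) % 4 = (2 * j + (if i + 1 = r then 2 else 0) : ℤ) % 4 := by
  intro i
  induction i with
  | zero =>
    intro _
    have h0 : df r (2 * j) 0 = 2 * j - 2 ^ r := by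
      unfold df
      simp [ab]
    rw [h0]
    refine ⟨?_, ?_⟩
    · rw [abs_le]
      have : (j : ℤ) ≤ 2 ^ r := by exact_mod_cast hj
      simp only [Nat.sub_zero]
      constructor <;> linarith
    · obtain ⟨q, rfl⟩ : ∃ q, r = q + 1 := ⟨r - 1, by omega⟩
      rcases Nat.eq_zero_or_pos q with hq | hq
      · subst hq
        norm_num
        omega
      · obtain ⟨q', rfl⟩ : ∃ q', q = q' + 1 := ⟨q - 1, by omega⟩
        have h2 : ¬ (0 + 1 = q' + 1 + 1) := by omega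
        rw [if_neg h2]
        have h3 : (2 : ℤ) ^ (q' + 1 + 1) = 4 * 2 ^ q' := by ring
        rw [h3]
        omega
  | succ i ih =>
    intro hi
    obtain ⟨h1, h2⟩ := ih (by omega)
    have h3 := df_succ r (2 * j) i (by omega)
    have h4 : (2 : ℤ) ^ (r - i) = 2 * 2 ^ (r - (i + 1)) := by
      have : r - i = (r - (i + 1)) + 1 := by omega
      rw [this, pow_succ]; ring
    rw [h4] at h1
    have h5 := abs_nonneg (df r (2 * j) i)
    refine ⟨?_, ?_⟩
    · rw [h3, abs_le]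
      constructor <;> linarith
    · rw [if_neg (by omega)] at h2
      rw [h3]
      obtain ⟨q, hq⟩ : ∃ q, r - (i + 1) = q + 1 := ⟨r - (i + 1) - 1, by omega⟩
      rw [hq]
      rcases Nat.eq_zero_or_pos q with hq0 | hq0
      · subst hq0
        rw [if_pos (by omega)]
        norm_num
        rcases abs_cases (df r (2 * j) i) with ⟨h6, -⟩ | ⟨h6, -⟩ <;> rw [h6] <;> omega
      · obtain ⟨q', rfl⟩ : ∃ q', q = q' + 1 := ⟨q - 1, by omega⟩
        rw [if_neg (by omega)]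
        have h7 : (2 : ℤ) ^ (q' + 1 + 1) = 4 * 2 ^ q' := by ring
        rw [h7]
        rcases abs_cases (df r (2 * j) i) with ⟨h6, -⟩ | ⟨h6, -⟩ <;> rw [h6] <;> omega

/-- the last difference -/
theorem df_last (r j : ℕ) (hr : 1 ≤ r) (hj : j ≤ 2 ^ r) : df r (2 * j) r = (-1) ^ j := by
  obtain ⟨q, rfl⟩ : ∃ q, r = q + 1 := ⟨r - 1, by omega⟩
  obtain ⟨h1, h2⟩ := df_main (q + 1) j hr hj q le_rfl
  rw [if_pos rfl] at h2
  have h3 := df_succ (q + 1) (2 * j) q (by omega)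
  have e1 : q + 1 - q = 1 := by omega
  have e2 : q + 1 - (q + 1) = 0 := by omega
  rw [e1, pow_one] at h1
  rw [e2, pow_zero] at h3
  rw [h3]
  rw [abs_le] at h1
  rcases Nat.even_or_odd j with hev | hod
  · rw [hev.neg_one_pow]
    obtain ⟨k, hk⟩ := hev
    have h4 : df (q + 1) (2 * j) q = 2 ∨ df (q + 1) (2 * j) q = -2 := by
      have : (j : ℤ) = k + k := by exact_mod_cast hk
      rw [this] at h2
      omega
    rcases h4 with h4 | h4 <;> rw [h4] <;> norm_num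
  · rw [hod.neg_one_pow]
    obtain ⟨k, hk⟩ := hod
    have h4 : df (q + 1) (2 * j) q = 0 := by
      have : (j : ℤ) = 2 * k + 1 := by exact_mod_cast hk
      rw [this] at h2
      omega
    rw [h4]; norm_num

/-- centered points of cost `τ ^ (2 j)` are alternately on two sides of a hyperplane -/
theorem alternates (r τ : ℕ) (hr : 1 ≤ r) (K : ℝ) (hK : 0 < K) (hτ : K * 2 ^ r < τ) (x : Jx r → ℝ)
    (hx : (prog r τ).Centered K x) (j : ℕ) (hj : j ≤ 2 ^ r)
    (hc : (prog r τ).cost x = (τ : ℝ) ^ (2 * j)) :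
    0 < (-1) ^ j * (x (Fin.last r, true) - x (Fin.last r, false)) := by
  have hτ0 : (0 : ℝ) < τ := lt_trans (by positivity) hτ
  have hτ1 : 1 ≤ τ := by
    have : 0 < τ := by exact_mod_cast hτ0
    omega
  have hl0 : (0 : ℝ) ≤ (τ : ℝ) ^ (2 * j) := by positivity
  have hfeas : (prog r τ).Feasible x := fun i => (hx.1 i).le
  have hup := le_UV r τ x hfeas ((τ : ℝ) ^ (2 * j)) (by rw [← hc, cost_eq]) r (Nat.lt_succ_self r)
  have htopc : (prog r τ).cost (top r τ ((τ : ℝ) ^ (2 * j))) ≤ (prog r τ).cost x := by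
    rw [hc, cost_eq]
    exact le_of_eq rfl
  have hlow := hx.2 _ (top_feasible r τ _ hl0) htopc
  have hlu := hlow (Sum.inr (Sum.inr false))
  have hlv := hlow (Sum.inr (Sum.inr true))
  rw [slack_last, slack_last] at hlu hlv
  have htu : top r τ ((τ : ℝ) ^ (2 * j)) (Fin.last r, false) = (UV r τ ((τ : ℝ) ^ (2 * j)) r).1 :=
    rfl
  have htv : top r τ ((τ : ℝ) ^ (2 * j)) (Fin.last r, true) = (UV r τ ((τ : ℝ) ^ (2 * j)) r).2 :=
    rfl
  rw [htu] at hlu
  rw [htv] at hlv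
  obtain ⟨⟨a1, a2⟩, b1, b2⟩ := UV_ab r τ (2 * j) hτ1 r
  have hd := df_last r j hr hj
  unfold df at hd
  have hxu : x (Fin.last r, false) ≤ (UV r τ ((τ : ℝ) ^ (2 * j)) r).1 := hup.1
  have hxv : x (Fin.last r, true) ≤ (UV r τ ((τ : ℝ) ^ (2 * j)) r).2 := hup.2
  rcases Nat.even_or_odd j with hev | hod
  · rw [hev.neg_one_pow, one_mul]
    rw [hev.neg_one_pow] at hd
    have he : (ab r (2 * j) r).2 = (ab r (2 * j) r).1 + 1 := by omega
    rw [he, pow_succ] at b1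
    have hp : (0 : ℝ) < (τ : ℝ) ^ (ab r (2 * j) r).1 := by positivity
    -- K * v ≥ V ≥ τ * τ ^ a > K * 2 ^ r * τ ^ a ≥ K * U ≥ K * u
    have h1 : K * (2 ^ r * (τ : ℝ) ^ (ab r (2 * j) r).1) <
        (τ : ℝ) ^ (ab r (2 * j) r).1 * τ := by nlinarith
    have h2 : K * x (Fin.last r, false) ≤ K * (2 ^ r * (τ : ℝ) ^ (ab r (2 * j) r).1) :=
      mul_le_mul_of_nonneg_left (hxu.trans a2) hK.le
    have h3 : K * x (Fin.last r, false) < K * x (Fin.last r, true) := by linarith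
    have h4 := lt_of_mul_lt_mul_left h3 hK.le
    linarith
  · rw [hod.neg_one_pow]
    rw [hod.neg_one_pow] at hd
    have he : (ab r (2 * j) r).1 = (ab r (2 * j) r).2 + 1 := by omega
    rw [he, pow_succ] at a1
    have hp : (0 : ℝ) < (τ : ℝ) ^ (ab r (2 * j) r).2 := by positivity
    have h1 : K * (2 ^ r * (τ : ℝ) ^ (ab r (2 * j) r).2) <
        (τ : ℝ) ^ (ab r (2 * j) r).2 * τ := by nlinarith
    have h2 : K * x (Fin.last r, true) ≤ K * (2 ^ r * (τ : ℝ) ^ (ab r (2 * j) r).2) :=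
      mul_le_mul_of_nonneg_left (hxv.trans b2) hK.le
    have h3 : K * x (Fin.last r, true) < K * x (Fin.last r, false) := by linarith
    have h4 := lt_of_mul_lt_mul_left h3 hK.le
    linarith

end Pool.Agent.helper747_ip
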