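import Pool.Agent.helper747_ip.Inst

/-!
# The wide neighbourhood and the existence of the central path
-/

set_option autoImplicit false

namespace Pool.Agent.helper747_ip

open Finset

section general

variable {I J : Type} [Fintype I] [Fintype J]

/-- the duality gap -/
theorem gap_eq (P : LP I J) (x : J → ℝ) (y : I → ℝ) (hy : ∀ j, ∑ i, y i * P.A i j = P.c j) :
    P.cost x = ∑ i, P.slack x i * y i + ∑ i, P.b i * y i := by
  unfold LP.cost LP.slack
  rw [← Finset.sum_add_distrib]
  have h1 : ∀ i, (∑ j, P.A i j * x j - P.b i) * y i + P.b i * y i =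
      ∑ j, y i * P.A i j * x j := by
    intro i
    rw [sub_mul, sub_add_cancel, Finset.sum_mul]
    exact Finset.sum_congr rfl fun j _ => by ring
  rw [Finset.sum_congr rfl fun i _ => h1 i, Finset.sum_comm]
  refine Finset.sum_congr rfl fun j _ => ?_
  rw [← hy j, Finset.sum_mul]

/-- points of the wide neighbourhood are centered -/
theorem wide_centered (P : LP I J) (θ μ : ℝ) (hθ : 0 < θ) (x : J → ℝ) (y : I → ℝ)
    (h : P.Wide θ μ x y) : P.Centered (Fintype.card I / θ) x := by
  obtain ⟨h1, h2, h3, h4, h5⟩ := h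
  refine ⟨h1, fun z hz hc i => ?_⟩
  have e1 := gap_eq P x y h3
  have e2 := gap_eq P z y h3
  have e3 : ∑ i, P.slack z i * y i ≤ Fintype.card I * μ := by
    rw [← h4]
    linarith
  have e4 : P.slack z i * y i ≤ ∑ i, P.slack z i * y i :=
    Finset.single_le_sum (f := fun i => P.slack z i * y i)
      (fun i _ => mul_nonneg (hz i) (h2 i).le) (mem_univ i)
  have e5 := h5 i
  have hI : (0 : ℝ) ≤ Fintype.card I := Nat.cast_nonneg _
  have e6 : P.slack z i * y i ≤ Fintype.card I / θ * P.slack x i * y i := by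
    have e7 : (Fintype.card I : ℝ) * μ ≤ Fintype.card I / θ * (P.slack x i * y i) := by
      calc (Fintype.card I : ℝ) * μ = Fintype.card I / θ * (θ * μ) := by field_simp
        _ ≤ _ := mul_le_mul_of_nonneg_left e5 (by positivity)
    calc P.slack z i * y i ≤ Fintype.card I * μ := e4.trans e3
      _ ≤ _ := e7
      _ = _ := by ring
  exact le_of_mul_le_mul_right e6 (h2 i)

end general

theorem card_Ix (r : ℕ) : Fintype.card (Ix r) = 3 * r + 3 := by
  simp [Ix]
  omega

theorem card_Jx (r : ℕ) : Fintype.card (Jx r) = 2 * r + 2 := by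
  simp [Jx]
  omega

/-- the variables are nonnegative -/
theorem nonneg_of (r τ : ℕ) (hτ : 1 ≤ τ) (x : Jx r → ℝ) (hx : (prog r τ).Feasible x) :
    ∀ i, i ≤ r → 0 ≤ x (⟨r - i, by omega⟩, false) ∧ 0 ≤ x (⟨r - i, by omega⟩, true) := by
  have hτ0 : (0 : ℝ) < (τ : ℝ) ^ 2 ^ r := by
    have : (0 : ℝ) < τ := by exact_mod_cast hτ
    positivity
  rw [feasible_iff] at hx
  obtain ⟨-, h2, h3⟩ := hx
  intro i
  induction i with
  | zero => intro _; exact ⟨h3 false, h3 true⟩
  | succ i ih =>
    intro hi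
    obtain ⟨a, -⟩ := ih (by omega)
    obtain ⟨c1, c2, -⟩ := h2 ⟨r - (i + 1), by omega⟩
    have e1 : (Fin.succ (⟨r - (i + 1), by omega⟩ : Fin r) : Fin (r + 1)) = ⟨r - i, by omega⟩ := by
      apply Fin.ext
      show r - (i + 1) + 1 = r - i
      omega
    rw [e1] at c1 c2
    have e2 : (Fin.castSucc (⟨r - (i + 1), by omega⟩ : Fin r) : Fin (r + 1)) =
        ⟨r - (i + 1), by omega⟩ := rfl
    rw [e2] at c1 c2
    exact ⟨nonneg_of_mul_nonneg_right (a.trans c1) hτ0, nonneg_of_mul_nonneg_right (a.trans c2) hτ0⟩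

theorem nonneg_all (r τ : ℕ) (hτ : 1 ≤ τ) (x : Jx r → ℝ) (hx : (prog r τ).Feasible x)
    (j : Jx r) : 0 ≤ x j := by
  obtain ⟨i, k⟩ := j
  have h := nonneg_of r τ hτ x hx (r - i.1) (by omega)
  have e : (⟨r - (r - i.1), by omega⟩ : Fin (r + 1)) = i := by
    apply Fin.ext
    show r - (r - i.1) = i.1
    omega
  simp only [e] at h
  cases k
  · exact h.1
  · exact h.2

/-- the objective is between multiples of the duality measure -/
theorem cost_bounds (r τ : ℕ) (hr : 1 ≤ r) (hτ : 1 ≤ τ) (θ μ : ℝ) (x : Jx r → ℝ) (y : Ix r → ℝ)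
    (h : (prog r τ).Wide θ μ x y) : θ * μ ≤ (prog r τ).cost x ∧
      (prog r τ).cost x ≤ (3 * r + 3 : ℕ) * μ := by
  obtain ⟨h1, h2, h3, h4, h5⟩ := h
  have hfeas : (prog r τ).Feasible x := fun i => (h1 i).le
  have hnn := nonneg_all r τ hτ x hfeas
  obtain ⟨q, rfl⟩ : ∃ q, r = q + 1 := ⟨r - 1, by omega⟩
  refine ⟨?_, ?_⟩
  · -- dual constraint of the variable `v 0`
    rw [cost_eq]
    have h6 := h3 (0, true)
    have hA : ∀ i : Ix (q + 1), (prog (q + 1) τ).A i (0, true) =
        (mat (q + 1) τ i (0, true) : ℝ) := fun _ => rfl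
    have hc : (prog (q + 1) τ).c (0, true) = 1 := by
      show ((dl (0, true) (0, true) : ℤ) : ℝ) = 1
      simp [dl]
    rw [hc] at h6
    have hterm : ∀ i : Ix (q + 1), 0 ≤ y i * (prog (q + 1) τ).A i (0, true) := by
      intro i
      refine mul_nonneg (h2 i).le ?_
      rw [hA]
      rcases i with ⟨⟩ | ⟨i, k⟩ | k
      · show (0 : ℝ) ≤ ((- dl (0, false) (0, true) : ℤ) : ℝ)
        simp [dl]
      · have e1 : dl (i.succ, false) ((0 : Fin (q + 2)), true) = 0 := by simp [dl]
        have e2 : dl (i.succ, true) ((0 : Fin (q + 2)), true) = 0 := by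
          unfold dl
          rw [if_neg]
          intro hcon
          exact absurd (Prod.mk.inj hcon).1 (Fin.succ_ne_zero i)
        have e3 : ∀ j, 0 ≤ dl j ((0 : Fin (q + 2)), true) := by
          intro j; unfold dl; split_ifs <;> norm_num
        unfold mat
        simp only
        split_ifs
        · rw [e1, sub_zero]
          have := e3 (i.castSucc, false)
          have h9 : (0 : ℤ) ≤ (τ : ℤ) ^ 2 ^ (q + 1) * dl (i.castSucc, false) (0, true) := by
            positivity
          exact_mod_cast h9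
        · rw [e1, sub_zero]
          have := e3 (i.castSucc, true)
          have h9 : (0 : ℤ) ≤ (τ : ℤ) ^ 2 ^ (q + 1) * dl (i.castSucc, true) (0, true) := by
            positivity
          exact_mod_cast h9
        · rw [e2, sub_zero]
          have h7 := e3 (i.castSucc, true)
          have h8 := e3 (i.castSucc, false)
          have h9 : (0 : ℤ) ≤ (kap (q + 1) τ i.1 : ℤ) *
              (dl (i.castSucc, false) (0, true) + dl (i.castSucc, true) (0, true)) := by
            positivity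
          exact_mod_cast h9
      · show (0 : ℝ) ≤ ((dl (Fin.last (q + 1), k) (0, true) : ℤ) : ℝ)
        unfold dl
        split_ifs <;> norm_num
    obtain ⟨i0, hi0⟩ : ∃ i0 : Ix (q + 1), i0 = Sum.inr (Sum.inl (0, 1)) := ⟨_, rfl⟩
    have h7 : y i0 * (prog (q + 1) τ).A i0 (0, true) ≤ 1 := by
      rw [← h6]
      exact Finset.single_le_sum (f := fun i => y i * (prog (q + 1) τ).A i (0, true))
        (fun i _ => hterm i) (mem_univ i0)
    have h8 : (prog (q + 1) τ).A i0 (0, true) = (τ : ℝ) ^ 2 ^ (q + 1) := by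
      rw [hA, hi0]
      have e : mat (q + 1) τ (Sum.inr (Sum.inl (0, 1))) (0, true) = (τ : ℤ) ^ 2 ^ (q + 1) := by
        unfold mat
        simp [dl]
      rw [e]
      push_cast
      rfl
    rw [h8] at h7
    have h9 : (prog (q + 1) τ).slack x i0 ≤ (τ : ℝ) ^ 2 ^ (q + 1) * x (0, true) := by
      rw [hi0, slack_1]
      have := hnn ((0 : Fin (q + 1)).succ, false)
      have e : ((0 : Fin (q + 1)).castSucc, true) = ((0 : Fin (q + 2)), true) := rfl
      rw [e]
      linarith
    calc θ * μ ≤ (prog (q + 1) τ).slack x i0 * y i0 := h5 i0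
      _ ≤ ((τ : ℝ) ^ 2 ^ (q + 1) * x (0, true)) * y i0 :=
          mul_le_mul_of_nonneg_right h9 (h2 i0).le
      _ = (y i0 * (τ : ℝ) ^ 2 ^ (q + 1)) * x (0, true) := by ring
      _ ≤ 1 * x (0, true) := mul_le_mul_of_nonneg_right h7 (hnn _)
      _ = x (0, true) := one_mul _
  · have e1 := gap_eq (prog (q + 1) τ) x y h3
    have e2 : ∑ i, (prog (q + 1) τ).b i * y i ≤ 0 := by
      refine Finset.sum_nonpos fun i _ => ?_
      have hb : (prog (q + 1) τ).b i ≤ 0 := by
        show ((rhs (q + 1) τ i : ℤ) : ℝ) ≤ 0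
        rcases i with ⟨⟩ | i
        · show ((- (τ : ℤ) ^ 2 ^ (q + 1) : ℤ) : ℝ) ≤ 0
          push_cast
          have : (0 : ℝ) ≤ (τ : ℝ) ^ 2 ^ (q + 1) := by positivity
          linarith
        · show (((0 : ℤ)) : ℝ) ≤ 0
          norm_num
      exact mul_nonpos_of_nonpos_of_nonneg hb (h2 i).le
    rw [h4, card_Ix] at e1
    linarith

end Pool.Agent.helper747_ip
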