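import Pool.Agent.helper747_ip.Main

/-!
# The central path exists
-/

set_option autoImplicit false

namespace Pool.Agent.helper747_ip

open Finset Filter Topology

section general

variable {I J : Type} [Fintype I] [Fintype J]

theorem slack_cont (P : LP I J) (i : I) : Continuous fun x => P.slack x i := by
  unfold LP.slack
  fun_prop

theorem cost_cont (P : LP I J) : Continuous P.cost := by
  unfold LP.cost
  fun_prop

/-- growth of the slacks -/
theorem slack_growth (P : LP I J) (C : ℝ) (hC : 0 ≤ C)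
    (h : ∀ x, P.Feasible x → 0 ≤ P.cost x ∧ ∀ j, |x j| ≤ C * (1 + P.cost x)) :
    ∃ D : ℝ, 0 < D ∧ ∀ x, P.Feasible x → ∀ i, P.slack x i ≤ D * (1 + P.cost x) := by
  refine ⟨∑ i, (∑ j, |P.A i j| * C + |P.b i|) + 1, ?_, fun x hx i => ?_⟩
  · have : 0 ≤ ∑ i, (∑ j, |P.A i j| * C + |P.b i|) :=
      Finset.sum_nonneg fun i _ => add_nonneg
        (Finset.sum_nonneg fun j _ => mul_nonneg (abs_nonneg _) hC) (abs_nonneg _)
    linarith
  · obtain ⟨h0, h1⟩ := h x hx
    have e1 : P.slack x i ≤ (∑ j, |P.A i j| * C + |P.b i|) * (1 + P.cost x) := by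
      unfold LP.slack
      rw [add_mul, Finset.sum_mul]
      have e2 : ∑ j, P.A i j * x j ≤ ∑ j, |P.A i j| * C * (1 + P.cost x) := by
        refine Finset.sum_le_sum fun j _ => ?_
        calc P.A i j * x j ≤ |P.A i j * x j| := le_abs_self _
          _ = |P.A i j| * |x j| := abs_mul _ _
          _ ≤ |P.A i j| * (C * (1 + P.cost x)) := mul_le_mul_of_nonneg_left (h1 j) (abs_nonneg _)
          _ = _ := by ring
      have e3 : - P.b i ≤ |P.b i| * (1 + P.cost x) := by
        have := neg_le_abs (P.b i)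
        have h5 := abs_nonneg (P.b i)
        nlinarith
      linarith
    have e4 : ∑ j, |P.A i j| * C + |P.b i| ≤ ∑ i, (∑ j, |P.A i j| * C + |P.b i|) :=
      Finset.single_le_sum (f := fun i => ∑ j, |P.A i j| * C + |P.b i|)
        (fun i _ => add_nonneg
          (Finset.sum_nonneg fun j _ => mul_nonneg (abs_nonneg _) hC) (abs_nonneg _)) (mem_univ i)
    refine e1.trans (mul_le_mul_of_nonneg_right (by linarith) (by linarith))

/-- the central path exists -/
theorem path_exists [DecidableEq J] (P : LP I J) (C : ℝ) (hC : 0 ≤ C)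
    (h : ∀ x, P.Feasible x → 0 ≤ P.cost x ∧ ∀ j, |x j| ≤ C * (1 + P.cost x))
    (x0 : J → ℝ) (hx0 : ∀ i, 0 < P.slack x0 i) (μ : ℝ) (hμ : 0 < μ) :
    ∃ x y, P.Wide 1 μ x y := by
  obtain ⟨D, hD, hDs⟩ := slack_growth P C hC h
  obtain ⟨m, hm⟩ : ∃ m, m = Fintype.card I := ⟨_, rfl⟩
  obtain ⟨g, hg⟩ : ∃ g : (J → ℝ) → ℝ, g = fun x =>
    (∏ i, P.slack x i) * Real.exp (-(P.cost x / μ)) := ⟨_, rfl⟩
  have hgc : Continuous g := by
    rw [hg]
    refine Continuous.mul (continuous_finset_prod _ fun i _ => slack_cont P i) ?_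
    exact Real.continuous_exp.comp ((cost_cont P).div_const μ).neg
  have hg0 : 0 < g x0 := by
    rw [hg]
    exact mul_pos (Finset.prod_pos fun i _ => hx0 i) (Real.exp_pos _)
  have hgle : ∀ x, P.Feasible x → g x ≤ (D * (1 + P.cost x)) ^ m * Real.exp (-(P.cost x / μ)) := by
    intro x hx
    rw [hg]
    refine mul_le_mul_of_nonneg_right ?_ (Real.exp_pos _).le
    calc ∏ i, P.slack x i ≤ ∏ _i : I, (D * (1 + P.cost x)) :=
          Finset.prod_le_prod (fun i _ => hx i) fun i _ => hDs x hx i
      _ = _ := by rw [Finset.prod_const, card_univ, hm]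
  -- the bound tends to zero
  have htend : Tendsto (fun l : ℝ => (D * (1 + l)) ^ m * Real.exp (-(l / μ))) atTop (𝓝 0) := by
    have h1 := Real.tendsto_pow_mul_exp_neg_atTop_nhds_zero m
    have h2 : Tendsto (fun l : ℝ => (1 + l) / μ) atTop atTop :=
      (tendsto_atTop_add_const_left _ _ tendsto_id).atTop_div_const hμ
    have h3 := (h1.comp h2).const_mul ((D * μ) ^ m * Real.exp (1 / μ))
    rw [mul_zero] at h3
    refine h3.congr fun l => ?_
    show (D * μ) ^ m * Real.exp (1 / μ) * (((1 + l) / μ) ^ m * Real.exp (-((1 + l) / μ))) = _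
    have e1 : Real.exp (1 / μ) * Real.exp (-((1 + l) / μ)) = Real.exp (-(l / μ)) := by
      rw [← Real.exp_add]
      congr 1
      ring
    have e2 : (D * μ) ^ m * ((1 + l) / μ) ^ m = (D * (1 + l)) ^ m := by
      rw [← mul_pow]
      congr 1
      field_simp
    calc (D * μ) ^ m * Real.exp (1 / μ) * (((1 + l) / μ) ^ m * Real.exp (-((1 + l) / μ)))
        = ((D * μ) ^ m * ((1 + l) / μ) ^ m) * (Real.exp (1 / μ) * Real.exp (-((1 + l) / μ))) := by
          ring
      _ = _ := by rw [e1, e2]
  obtain ⟨Λ0, hΛ0⟩ := eventually_atTop.1 (htend.eventually (gt_mem_nhds hg0))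
  obtain ⟨Λ, hΛ⟩ : ∃ Λ, Λ = max Λ0 (P.cost x0) := ⟨_, rfl⟩
  -- a maximiser
  have hcomp : IsCompact {x : J → ℝ | P.Feasible x ∧ P.cost x ≤ Λ} := by
    refine Metric.isCompact_of_isClosed_isBounded ?_ ?_
    · refine IsClosed.and ?_ ?_
      · have : {x : J → ℝ | P.Feasible x} = ⋂ i, {x | 0 ≤ P.slack x i} := by
          ext x
          simp [LP.Feasible]
        show IsClosed {x : J → ℝ | P.Feasible x}
        rw [this]
        exact isClosed_iInter fun i => isClosed_le continuous_const (slack_cont P i)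
      · exact isClosed_le (cost_cont P) continuous_const
    · refine (Metric.isBounded_closedBall (x := (0 : J → ℝ)) (r := C * (1 + Λ))).subset ?_
      rintro x ⟨hx, hxΛ⟩
      obtain ⟨e0, e1⟩ := h x hx
      rw [mem_closedBall_zero_iff]
      refine (pi_norm_le_iff_of_nonneg ?_).2 fun j => ?_
      · exact mul_nonneg hC (by linarith)
      · rw [Real.norm_eq_abs]
        exact (e1 j).trans (mul_le_mul_of_nonneg_left (by linarith) hC)
  obtain ⟨x, ⟨hxf, hxΛ⟩, hmax⟩ := hcomp.exists_isMaxOn
    ⟨x0, ⟨fun i => (hx0 i).le, by rw [hΛ]; exact le_max_right _ _⟩⟩ hgc.continuousOn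
  have hmax' : ∀ z, P.Feasible z → g z ≤ g x := by
    intro z hz
    by_cases hzΛ : P.cost z ≤ Λ
    · exact hmax ⟨hz, hzΛ⟩
    · push Not at hzΛ
      have e1 : g x0 ≤ g x := hmax ⟨fun i => (hx0 i).le, by rw [hΛ]; exact le_max_right _ _⟩
      have e2 := hΛ0 (P.cost z) ((le_max_left Λ0 (P.cost x0)).trans (by rw [← hΛ]; exact hzΛ.le))
      linarith [hgle z hz]
  have hgx : 0 < g x := lt_of_lt_of_le hg0 (hmax' x0 fun i => (hx0 i).le)
  have hxpos : ∀ i, 0 < P.slack x i := by
    intro i
    refine lt_of_le_of_ne (hxf i) fun he => ?_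
    rw [hg] at hgx
    have : ∏ i, P.slack x i = 0 := Finset.prod_eq_zero (mem_univ i) he.symm
    simp only [this, zero_mul] at hgx
    exact lt_irrefl _ hgx
  -- stationarity
  have hstat : ∀ j, ∑ i, P.A i j / P.slack x i = P.c j / μ := by
    intro j
    obtain ⟨z, hz⟩ : ∃ z : ℝ → J → ℝ, z = fun s k => x k + s * (if k = j then 1 else 0) := ⟨_, rfl⟩
    have hzs : ∀ s i, P.slack (z s) i = P.slack x i + s * P.A i j := by
      intro s i
      unfold LP.slack
      rw [hz]
      have : ∀ k, P.A i k * (x k + s * (if k = j then 1 else 0)) =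
          P.A i k * x k + s * (if k = j then P.A i k else 0) := by
        intro k; split_ifs <;> ring
      simp only [this]
      rw [Finset.sum_add_distrib, ← Finset.mul_sum, Finset.sum_ite_eq' univ j,
        if_pos (mem_univ _)]
      ring
    have hzc : ∀ s, P.cost (z s) = P.cost x + s * P.c j := by
      intro s
      unfold LP.cost
      rw [hz]
      have : ∀ k, P.c k * (x k + s * (if k = j then 1 else 0)) =
          P.c k * x k + s * (if k = j then P.c k else 0) := by
        intro k; split_ifs <;> ring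
      simp only [this]
      rw [Finset.sum_add_distrib, ← Finset.mul_sum, Finset.sum_ite_eq' univ j,
        if_pos (mem_univ _)]
    obtain ⟨ψ, hψ⟩ : ∃ ψ : ℝ → ℝ, ψ = fun s =>
      ∑ i, Real.log (P.slack x i + s * P.A i j) - (P.cost x + s * P.c j) / μ := ⟨_, rfl⟩
    have hderiv : HasDerivAt ψ (∑ i, P.A i j / P.slack x i - P.c j / μ) 0 := by
      rw [hψ]
      refine HasDerivAt.sub ?_ ?_
      · refine HasDerivAt.fun_sum fun i _ => ?_
        have e1 : HasDerivAt (fun s : ℝ => P.slack x i + s * P.A i j) (P.A i j) 0 := by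
          simpa using ((hasDerivAt_id (0 : ℝ)).mul_const (P.A i j)).const_add (P.slack x i)
        have e2 := e1.log (by simpa using (hxpos i).ne')
        simpa using e2
      · have e1 : HasDerivAt (fun s : ℝ => P.cost x + s * P.c j) (P.c j) 0 := by
          simpa using ((hasDerivAt_id (0 : ℝ)).mul_const (P.c j)).const_add (P.cost x)
        exact e1.div_const μ
    have hloc : IsLocalMax ψ 0 := by
      have hev : ∀ᶠ s : ℝ in 𝓝 0, ∀ i, 0 < P.slack x i + s * P.A i j := by
        rw [eventually_all]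
        intro i
        have hc : Continuous fun s : ℝ => P.slack x i + s * P.A i j := by fun_prop
        have : Tendsto (fun s : ℝ => P.slack x i + s * P.A i j) (𝓝 0)
            (𝓝 (P.slack x i + 0 * P.A i j)) := hc.tendsto 0
        refine this.eventually (lt_mem_nhds ?_)
        simpa using hxpos i
      filter_upwards [hev] with s hs
      have hfz : P.Feasible (z s) := fun i => by rw [hzs]; exact (hs i).le
      have e1 := hmax' (z s) hfz
      rw [hg] at e1
      simp only [hzs, hzc] at e1
      have hp1 : 0 < ∏ i, (P.slack x i + s * P.A i j) := Finset.prod_pos fun i _ => hs i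
      have hp2 : 0 < ∏ i, P.slack x i := Finset.prod_pos fun i _ => hxpos i
      have e2 := Real.log_le_log (mul_pos hp1 (Real.exp_pos _)) e1
      rw [Real.log_mul hp1.ne' (Real.exp_pos _).ne', Real.log_mul hp2.ne' (Real.exp_pos _).ne',
        Real.log_exp, Real.log_exp, Real.log_prod (fun i _ => (hs i).ne'),
        Real.log_prod (fun i _ => (hxpos i).ne')] at e2
      rw [hψ]
      show ∑ i, Real.log (P.slack x i + s * P.A i j) - (P.cost x + s * P.c j) / μ ≤
        ∑ i, Real.log (P.slack x i + 0 * P.A i j) - (P.cost x + 0 * P.c j) / μ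
      simp only [zero_mul, add_zero]
      linarith
    have := hloc.hasDerivAt_eq_zero hderiv
    linarith
  refine ⟨x, fun i => μ / P.slack x i, hxpos, fun i => div_pos hμ (hxpos i), fun j => ?_, ?_,
    fun i => ?_⟩
  · have e1 : ∀ i, μ / P.slack x i * P.A i j = μ * (P.A i j / P.slack x i) := fun i => by ring
    rw [Finset.sum_congr rfl fun i _ => e1 i, ← Finset.mul_sum, hstat]
    field_simp
  · have e1 : ∀ i, P.slack x i * (μ / P.slack x i) = μ := fun i => by
      have := (hxpos i).ne'
      field_simp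
    rw [Finset.sum_congr rfl fun i _ => e1 i, Finset.sum_const, card_univ, nsmul_eq_mul]
  · have := (hxpos i).ne'
    rw [one_mul]
    apply le_of_eq
    field_simp

end general

end Pool.Agent.helper747_ip
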